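import Pool.Agent.helper42.CQ.SpecC

/-! # CQ: WTA -/

set_option autoImplicit false

namespace Pool.Agent.helper42.CQ

open Finset Pool.Agent.helper24.CG

private theorem WTA_cons {N : ℕ} (b m : ℕ) (K : Finset (Fin N)) (E : ES N) (H : List (ES N))
    (e : Finset (Fin N)) : wt b m K (E :: H) e = (if e ∈ E then
      Real.log (1 + (b : ℝ) * ((E ∩ ed K).card : ℝ) / (m : ℝ)) /
        (((E ∩ ed K).card : ℝ) * Real.log (1 + (b : ℝ) / (m : ℝ))) else 0) + wt b m K H e := by
  unfold wt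
  rw [List.map_cons, List.sum_cons]

private theorem WTA_zero {N : ℕ} (b m : ℕ) (K : Finset (Fin N)) (H : List (ES N))
    (e : Finset (Fin N)) (h : ∀ E ∈ H, e ∉ E) : wt b m K H e = 0 := by
  induction H with
  | nil => rfl
  | cons E H ih =>
    rw [WTA_cons, if_neg (h E List.mem_cons_self), zero_add]
    exact ih fun E' hE' => h E' (List.mem_cons_of_mem _ hE')

private theorem WTA_one {N : ℕ} (b m : ℕ) (K : Finset (Fin N)) (H : List (ES N))
    (hH : H.Pairwise Disjoint) (e : Finset (Fin N)) (E : ES N) (hE : E ∈ H) (he : e ∈ E) :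
    wt b m K H e = Real.log (1 + (b : ℝ) * ((E ∩ ed K).card : ℝ) / (m : ℝ)) /
      (((E ∩ ed K).card : ℝ) * Real.log (1 + (b : ℝ) / (m : ℝ))) := by
  induction H with
  | nil => exact absurd hE List.not_mem_nil
  | cons E' H ih =>
    rw [List.pairwise_cons] at hH
    rw [WTA_cons]
    rcases List.mem_cons.1 hE with h1 | h1
    · subst h1
      rw [if_pos he, WTA_zero b m K H e, add_zero]
      intro E'' hE'' he''
      exact Finset.disjoint_left.1 (hH.1 E'' hE'') he he''
    · rw [if_neg, zero_add]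
      · exact ih hH.2 h1
      · intro he'
        exact Finset.disjoint_left.1 (hH.1 E h1) he' he

private theorem WTA_append {N : ℕ} (b m : ℕ) (K : Finset (Fin N)) (H₂ H₁ : List (ES N))
    (e : Finset (Fin N)) : wt b m K (H₂ ++ H₁) e = wt b m K H₂ e + wt b m K H₁ e := by
  unfold wt
  rw [List.map_append, List.sum_append]

private theorem WTA_term (b m j : ℕ) (hm : 1 ≤ m) (hb : 1 ≤ b) :
    0 ≤ Real.log (1 + (b : ℝ) * (j : ℝ) / (m : ℝ)) / ((j : ℝ) * Real.log (1 + (b : ℝ) / (m : ℝ))) ∧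
    Real.log (1 + (b : ℝ) * (j : ℝ) / (m : ℝ)) / ((j : ℝ) * Real.log (1 + (b : ℝ) / (m : ℝ))) ≤ 1 := by
  have hm' : (0 : ℝ) < m := by exact_mod_cast hm
  have hb' : (0 : ℝ) < b := by exact_mod_cast hb
  have hl : 0 < Real.log (1 + (b : ℝ) / (m : ℝ)) := by
    apply Real.log_pos
    have : 0 < (b : ℝ) / (m : ℝ) := by positivity
    linarith
  have hl2 : 0 ≤ Real.log (1 + (b : ℝ) * (j : ℝ) / (m : ℝ)) := by
    apply Real.log_nonneg
    have : 0 ≤ (b : ℝ) * (j : ℝ) / (m : ℝ) := by positivity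
    linarith
  refine ⟨by positivity, ?_⟩
  apply div_le_one_of_le₀ _ (by positivity)
  have h1 : 1 + (j : ℝ) * ((b : ℝ) / m) ≤ (1 + (b : ℝ) / m) ^ j := by
    apply one_add_mul_le_pow
    have : 0 < (b : ℝ) / (m : ℝ) := by positivity
    linarith
  calc Real.log (1 + (b : ℝ) * (j : ℝ) / (m : ℝ)) = Real.log (1 + (j : ℝ) * ((b : ℝ) / m)) := by
        congr 1
        ring
    _ ≤ Real.log ((1 + (b : ℝ) / m) ^ j) := by
        apply Real.log_le_log _ h1
        positivity
    _ = (j : ℝ) * Real.log (1 + (b : ℝ) / m) := Real.log_pow _ _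

/-- **WTA** -/
theorem WTA : WTA_stmt := by
  intro N m b K H hm hb hH
  refine ⟨?_, ?_, ?_, ?_, ?_⟩
  · intro e
    by_cases h : ∃ E ∈ H, e ∈ E
    · obtain ⟨E, hE, he⟩ := h
      rw [WTA_one b m K H hH.disj e E hE he]
      exact WTA_term b m _ hm hb
    · have h0 : wt b m K H e = 0 := WTA_zero b m K H e fun E hE he => h ⟨E, hE, he⟩
      rw [h0]
      exact ⟨le_rfl, zero_le_one⟩
  · rintro H₂ H₁ e rfl
    exact WTA_append b m K H₂ H₁ e
  · intro E hE e he hek
    refine ⟨?_, ?_, WTA_one b m K H hH.disj e E hE he⟩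
    · exact Finset.card_pos.2 ⟨e, Finset.mem_inter.2 ⟨he, hek⟩⟩
    · exact (Finset.card_le_card Finset.inter_subset_left).trans (hH.mem E hE).2.2
  · intro e he
    exact WTA_zero b m K H e he
  · rintro H₂ H₁ e rfl ⟨E, hE, he⟩
    have h0 : wt b m K H₂ e = 0 := by
      apply WTA_zero
      intro E' hE' he'
      have h1 := (List.pairwise_append.1 hH.disj).2.2 E' hE' E hE
      exact Finset.disjoint_left.1 h1 he' he
    rw [WTA_append, h0, zero_add]

end Pool.Agent.helper42.CQ
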